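import Mathlib

set_option autoImplicit false

/-!
# No absolute constant in the stability of low-degree Boolean functions on `S_n`

For every even `t ≥ 2` and every `n ≥ 2 (t + 1)` there is a family `A ⊆ S_n` whose indicator lies
in `U_t`, at relative distance at least `(t + 1) / (2 n)` from every union of `t`-cosets.
-/

namespace Pool.Agent.Results.MP_e70d00_co.NoAbsoluteConstant

open Finset Equiv

/-- The `t`-coset `{σ : σ (a i) = b i for i = 1, …, t}`, for two `t`-tuples of distinct
elements of `[n]`. -/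
def tCoset {n t : ℕ} (a b : Fin t ↪ Fin n) : Finset (Perm (Fin n)) :=
  univ.filter fun σ => ∀ i, σ (a i) = b i

/-- The characteristic function of a family of permutations. -/
def ind {n : ℕ} (A : Finset (Perm (Fin n))) : Perm (Fin n) → ℝ :=
  fun σ => if σ ∈ A then 1 else 0

/-- `U_t`: the span of the characteristic functions of the `t`-cosets. -/
def U (n t : ℕ) : Submodule ℝ (Perm (Fin n) → ℝ) :=
  Submodule.span ℝ {f | ∃ a b : Fin t ↪ Fin n, f = ind (tCoset a b)}

/-- The expectation under the uniform measure on `S_n`. -/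
noncomputable def expect {n : ℕ} (h : Perm (Fin n) → ℝ) : ℝ :=
  (1 / (n.factorial : ℝ)) * ∑ σ, h σ

/-- `g` is the orthogonal projection of `f` onto `U_t`, for the inner product
`⟨f, g⟩ = (1 / n!) ∑ f(σ) g(σ)`. -/
def IsProj {n : ℕ} (t : ℕ) (f g : Perm (Fin n) → ℝ) : Prop :=
  g ∈ U n t ∧ ∀ h ∈ U n t, expect (fun σ => (f σ - g σ) * h σ) = 0

/-- `C` is a union of `t`-cosets. -/
def IsUnionOfCosets {n : ℕ} (t : ℕ) (C : Finset (Perm (Fin n))) : Prop :=
  ∃ T : Set ((Fin t ↪ Fin n) × (Fin t ↪ Fin n)),
    ∀ σ, σ ∈ C ↔ ∃ p ∈ T, σ ∈ tCoset p.1 p.2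

/-- The stability statement of the conjecture, with constant `C₀`, for the given `t` and `n`. -/
def StabilityHolds (C₀ : ℝ) (t n : ℕ) : Prop :=
  ∀ ε : ℝ, 0 < ε → ∀ (A : Finset (Perm (Fin n))) (ft : Perm (Fin n) → ℝ), IsProj t (ind A) ft →
    expect (fun σ => (ind A σ - ft σ) ^ 2) ≤ ε * expect (ind A) →
    ∃ C : Finset (Perm (Fin n)), IsUnionOfCosets t C ∧
      ((symmDiff A C).card : ℝ) ≤ C₀ * (ε + 1 / n) * A.card

/-! ### Monomials -/

/-- The monomial `∏_{(x,y) ∈ s} [σ x = y]`. -/
def mon {n : ℕ} (s : Finset (Fin n × Fin n)) : Perm (Fin n) → ℝ :=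
  fun σ => if ∀ p ∈ s, σ p.1 = p.2 then 1 else 0

theorem mon_card_eq {n t : ℕ} (s : Finset (Fin n × Fin n)) (hs : s.card = t) :
    mon s ∈ U n t := by
  classical
  by_cases h1 : Set.InjOn (fun p : Fin n × Fin n => p.1) s ∧
      Set.InjOn (fun p : Fin n × Fin n => p.2) s
  · obtain ⟨h1, h2⟩ := h1
    let e := s.equivFinOfCardEq hs
    let a : Fin t ↪ Fin n := ⟨fun i => (e.symm i).1.1, fun i j hij => by
      have := h1 (e.symm i).2 (e.symm j).2 hij
      exact e.symm.injective (Subtype.ext this)⟩
    let b : Fin t ↪ Fin n := ⟨fun i => (e.symm i).1.2, fun i j hij => by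
      have := h2 (e.symm i).2 (e.symm j).2 hij
      exact e.symm.injective (Subtype.ext this)⟩
    refine Submodule.subset_span ⟨a, b, ?_⟩
    funext σ
    have : (∀ p ∈ s, σ p.1 = p.2) ↔ σ ∈ tCoset a b := by
      simp only [tCoset, mem_filter, mem_univ, true_and]
      constructor
      · intro h i
        exact h _ (e.symm i).2
      · intro h p hp
        have h' : σ (e.symm (e ⟨p, hp⟩)).1.1 = (e.symm (e ⟨p, hp⟩)).1.2 := h (e ⟨p, hp⟩)
        rwa [e.symm_apply_apply] at h'
    simp only [mon, ind, this]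
  · have : mon s = 0 := by
      funext σ
      simp only [mon, Pi.zero_apply, ite_eq_right_iff, one_ne_zero, imp_false]
      intro h
      apply h1
      constructor
      · intro p hp q hq hpq
        simp only at hpq
        have e1 := h p hp
        have e2 := h q hq
        rw [hpq, e2] at e1
        exact Prod.ext hpq e1.symm
      · intro p hp q hq hpq
        simp only at hpq
        have e1 := h p hp
        have e2 := h q hq
        rw [← hpq] at e2
        exact Prod.ext (σ.injective (e1.trans e2.symm)) hpq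
    rw [this]
    exact Submodule.zero_mem _

theorem mon_mem {n t : ℕ} (htn : t ≤ n) : ∀ (k : ℕ) (s : Finset (Fin n × Fin n)),
    s.card + k = t → mon s ∈ U n t := by
  classical
  intro k
  induction k with
  | zero => intro s hs; exact mon_card_eq s (by simpa using hs)
  | succ k ih =>
    intro s hs
    have hx : ∃ x : Fin n, x ∉ s.image Prod.fst := by
      by_contra hcon
      push Not at hcon
      have h1 : (univ : Finset (Fin n)) ⊆ s.image Prod.fst := fun x _ => hcon x
      have h2 := card_le_card h1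
      have h3 := card_image_le (s := s) (f := Prod.fst)
      simp at h2
      omega
    obtain ⟨x, hx⟩ := hx
    have hmon : mon s = ∑ y : Fin n, mon (insert (x, y) s) := by
      funext σ
      rw [Finset.sum_apply]
      rw [Finset.sum_eq_single (σ x)]
      · simp [mon]
      · intro y _ hy
        simp only [mon, mem_insert, forall_eq_or_imp, ite_eq_right_iff, one_ne_zero, imp_false]
        intro h
        exact hy h.1.symm
      · simp
    rw [hmon]
    refine Submodule.sum_mem _ fun y _ => ih _ ?_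
    have : (x, y) ∉ s := fun h => hx (mem_image.2 ⟨_, h, rfl⟩)
    rw [card_insert_of_notMem this]
    omega

/-! ### The family -/

/-- `N(σ) = |{(x, y) ∈ X × Y : σ x = y}|`. -/
def N {n : ℕ} (X Y : Finset (Fin n)) (σ : Perm (Fin n)) : ℕ :=
  ((X ×ˢ Y).filter fun p => σ p.1 = p.2).card

theorem choose_N_mem {n t j : ℕ} (htn : t ≤ n) (hj : j ≤ t) (X Y : Finset (Fin n)) :
    (fun σ => ((N X Y σ).choose j : ℝ)) ∈ U n t := by
  classical
  have : (fun σ => ((N X Y σ).choose j : ℝ)) =
      ∑ s ∈ powersetCard j (X ×ˢ Y), mon s := by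
    funext σ
    rw [Finset.sum_apply]
    simp only [mon]
    rw [Finset.sum_boole]
    congr 1
    rw [N, ← card_powersetCard]
    congr 1
    ext s
    simp only [mem_powersetCard, mem_filter, subset_iff, and_assoc]
    constructor
    · rintro ⟨h1, h2⟩
      exact ⟨fun p hp => (h1 hp).1, h2, fun p hp => (h1 hp).2⟩
    · rintro ⟨h1, h2, h3⟩
      exact ⟨fun p hp => ⟨h1 hp, h3 p hp⟩, h2⟩
  rw [this]
  refine Submodule.sum_mem _ fun s hs => mon_mem htn (t - j) s ?_
  rw [(mem_powersetCard.1 hs).2]
  omega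

theorem N_le {n : ℕ} (X Y : Finset (Fin n)) (σ : Perm (Fin n)) : N X Y σ ≤ X.card := by
  classical
  refine card_le_card_of_injOn Prod.fst ?_ ?_
  · intro p hp
    have hp' := mem_filter.1 (mem_coe.1 hp)
    exact (mem_product.1 hp'.1).1
  · intro p hp q hq hpq
    have hp' := (mem_filter.1 (mem_coe.1 hp)).2
    have hq' := (mem_filter.1 (mem_coe.1 hq)).2
    refine Prod.ext hpq ?_
    rw [← hp', ← hq']
    exact congrArg σ hpq

theorem N_eq_zero {n : ℕ} {X Y : Finset (Fin n)} {σ : Perm (Fin n)} :
    N X Y σ = 0 ↔ ∀ x ∈ X, σ x ∉ Y := by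
  classical
  rw [N, card_eq_zero, filter_eq_empty_iff]
  constructor
  · intro h x hx hy
    exact h (x := (x, σ x)) (mem_product.2 ⟨hx, hy⟩) rfl
  · rintro h ⟨x, y⟩ hp hxy
    obtain ⟨hx, hy⟩ := mem_product.1 hp
    simp only at hx hy hxy
    exact h x hx (hxy ▸ hy)

/-- The family `A = {σ : N(σ) ∈ {0, |X|}}`. -/
def fam {n : ℕ} (X Y : Finset (Fin n)) : Finset (Perm (Fin n)) :=
  univ.filter fun σ => N X Y σ = 0 ∨ N X Y σ = X.card

theorem alt_sum (t k : ℕ) (ht : Even t) (hk : k ≤ t + 1) :
    (∑ j ∈ range (t + 1), (-1 : ℤ) ^ j * (k.choose j : ℤ)) = if k = 0 ∨ k = t + 1 then 1 else 0 := by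
  have hfull : ∀ m : ℕ, k ≤ m →
      (∑ j ∈ range (m + 1), (-1 : ℤ) ^ j * (k.choose j : ℤ)) = if k = 0 then 1 else 0 := by
    intro m hm
    rw [← Int.alternating_sum_range_choose (n := k)]
    symm
    refine sum_subset (range_subset_range.2 (by omega)) ?_
    intro j _ hj
    rw [mem_range, not_lt] at hj
    rw [Nat.choose_eq_zero_of_lt (by omega)]
    simp
  rcases Nat.lt_or_ge k (t + 1) with h | h
  · rw [hfull t (by omega)]
    have : k ≠ t + 1 := by omega
    simp [this]
  · have hk' : k = t + 1 := by omega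
    have h1 := hfull (t + 1) (by omega)
    rw [sum_range_succ, hk'] at h1
    rw [hk']
    have h2 : ((t + 1).choose (t + 1) : ℤ) = 1 := by simp
    rw [h2, pow_succ, ht.neg_one_pow] at h1
    simp only [Nat.add_eq_zero_iff, one_ne_zero, and_false, if_false] at h1
    simp only [or_true, if_true]
    linarith

theorem ind_fam_mem {n t : ℕ} (htn : t ≤ n) (ht : Even t) (X Y : Finset (Fin n))
    (hX : X.card = t + 1) : ind (fam X Y) ∈ U n t := by
  have : ind (fam X Y) =
      ∑ j ∈ range (t + 1), (-1 : ℝ) ^ j • (fun σ => ((N X Y σ).choose j : ℝ)) := by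
    funext σ
    rw [Finset.sum_apply]
    simp only [Pi.smul_apply, smul_eq_mul]
    have h := alt_sum t (N X Y σ) ht (hX ▸ N_le X Y σ)
    have h' := congrArg (fun z : ℤ => (z : ℝ)) h
    simp only [Int.cast_sum, Int.cast_mul, Int.cast_pow, Int.cast_neg, Int.cast_one,
      Int.cast_natCast, Int.cast_ite, Int.cast_zero] at h'
    rw [h']
    simp only [ind, fam, mem_filter, mem_univ, true_and, hX]
  rw [this]
  refine Submodule.sum_mem _ fun j hj => Submodule.smul_mem _ _ (choose_N_mem htn ?_ X Y)
  have := mem_range.1 hj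
  omega

/-! ### Expansion: a union of `t`-cosets leaks out of the family -/

/-- The relation used in the double count. -/
def Rel {n : ℕ} (X Y : Finset (Fin n)) (σ σ' : Perm (Fin n)) : Prop :=
  ∃ x ∈ X, ∃ z : Fin n, σ' x ∈ Y ∧ σ = σ' * swap x z

theorem leak {n t : ℕ} (X Y : Finset (Fin n)) (hX : X.card = t + 1) (hY : Y.card = t + 1)
    (ht : 1 ≤ t) (C : Finset (Perm (Fin n))) (hC : IsUnionOfCosets t C) :
    (C.filter fun σ => N X Y σ = 0).card * (t + 1) ≤ (C \ fam X Y).card * n := by
  classical
  obtain ⟨T, hT⟩ := hC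
  refine card_mul_le_card_mul (Rel X Y) ?_ ?_
  · intro σ hσ
    obtain ⟨hσC, hσ0⟩ := mem_filter.1 hσ
    have hσ0' := N_eq_zero.1 hσ0
    obtain ⟨⟨a, b⟩, hab, hσT⟩ := (hT σ).1 hσC
    have hσT' : ∀ i, σ (a i) = b i := (mem_filter.1 hσT).2
    -- the constrained elements
    set Xa := X \ (univ.image a) with hXa
    set Yb := Y \ (univ.image b) with hYb
    have hIJ : (univ.filter fun i => a i ∈ X).card + (univ.filter fun i => b i ∈ Y).card ≤ t := by
      rw [← card_union_of_disjoint]
      · exact (card_le_univ _).trans (by simp)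
      · rw [disjoint_filter]
        intro i _ hi hi'
        exact hσ0' _ hi (by rw [hσT']; exact hi')
    have hα : t + 1 ≤ Xa.card + (univ.filter fun i => a i ∈ X).card := by
      have h1 : (X ∩ univ.image a).card ≤ (univ.filter fun i => a i ∈ X).card := by
        have : X ∩ univ.image a ⊆ (univ.filter fun i => a i ∈ X).image a := by
          intro x hx
          obtain ⟨hx1, hx2⟩ := mem_inter.1 hx
          obtain ⟨i, _, hi⟩ := mem_image.1 hx2
          exact mem_image.2 ⟨i, by simp [hi, hx1], hi⟩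
        exact (card_le_card this).trans card_image_le
      have h2 := card_sdiff_add_card_inter X (univ.image a)
      rw [← hXa] at h2
      omega
    have hβ : t + 1 ≤ Yb.card + (univ.filter fun i => b i ∈ Y).card := by
      have h1 : (Y ∩ univ.image b).card ≤ (univ.filter fun i => b i ∈ Y).card := by
        have : Y ∩ univ.image b ⊆ (univ.filter fun i => b i ∈ Y).image b := by
          intro x hx
          obtain ⟨hx1, hx2⟩ := mem_inter.1 hx
          obtain ⟨i, _, hi⟩ := mem_image.1 hx2
          exact mem_image.2 ⟨i, by simp [hi, hx1], hi⟩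
        exact (card_le_card this).trans card_image_le
      have h2 := card_sdiff_add_card_inter Y (univ.image b)
      rw [← hYb] at h2
      omega
    have hprod : t + 1 ≤ (Xa ×ˢ Yb).card := by
      rw [card_product]
      have h1 : t + 2 ≤ Xa.card + Yb.card := by omega
      have h2 : Xa.card ≤ t + 1 := hX ▸ card_le_card sdiff_subset
      have h3 : Yb.card ≤ t + 1 := hY ▸ card_le_card sdiff_subset
      have h4 : 1 ≤ Xa.card := by omega
      have h5 : 1 ≤ Yb.card := by omega
      nlinarith
    refine hprod.trans ?_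
    refine card_le_card_of_injOn (fun p => σ * swap p.1 (σ⁻¹ p.2)) ?_ ?_
    · rintro ⟨x, y⟩ hp
      obtain ⟨hx, hy⟩ := mem_product.1 (mem_coe.1 hp)
      obtain ⟨hx1, hx2⟩ := mem_sdiff.1 hx
      obtain ⟨hy1, hy2⟩ := mem_sdiff.1 hy
      simp only at hx1 hx2 hy1 hy2
      have hz : σ⁻¹ y ∉ X := fun h => hσ0' _ h (by simpa using hy1)
      have hσ'x : (σ * swap x (σ⁻¹ y)) x = y := by simp
      have hother : ∀ w, w ≠ x → w ≠ σ⁻¹ y → (σ * swap x (σ⁻¹ y)) w = σ w := by
        intro w h1 h2
        rw [Perm.mul_apply, swap_apply_of_ne_of_ne h1 h2]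
      rw [mem_coe, mem_bipartiteAbove, mem_sdiff]
      refine ⟨⟨?_, ?_⟩, x, hx1, σ⁻¹ y, ?_, ?_⟩
      · rw [hT]
        refine ⟨(a, b), hab, mem_filter.2 ⟨mem_univ _, fun i => ?_⟩⟩
        change (σ * swap x (σ⁻¹ y)) (a i) = b i
        rw [hother, hσT']
        · rintro rfl
          exact hx2 (mem_image.2 ⟨i, mem_univ _, rfl⟩)
        · intro h
          apply hy2
          refine mem_image.2 ⟨i, mem_univ _, ?_⟩
          rw [← hσT', h]
          simp
      · -- N = 1
        have hN : N X Y (σ * swap x (σ⁻¹ y)) = 1 := by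
          rw [N, card_eq_one]
          refine ⟨(x, y), ?_⟩
          ext ⟨u, v⟩
          simp only [mem_filter, mem_product, mem_singleton, Prod.mk.injEq]
          constructor
          · rintro ⟨⟨hu, hv⟩, huv⟩
            by_cases hux : u = x
            · subst hux
              exact ⟨rfl, by rw [← huv, hσ'x]⟩
            · exfalso
              have hu2 : u ≠ σ⁻¹ y := fun h => hz (h ▸ hu)
              rw [hother u hux hu2] at huv
              exact hσ0' u hu (huv ▸ hv)
          · rintro ⟨rfl, rfl⟩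
            exact ⟨⟨hx1, hy1⟩, hσ'x⟩
        simp only [fam, mem_filter, mem_univ, true_and, hN, hX]
        omega
      · change (σ * swap x (σ⁻¹ y)) x ∈ Y
        rw [hσ'x]
        exact hy1
      · simp [mul_assoc]
    · rintro ⟨x, y⟩ hp ⟨x', y'⟩ hp' heq
      obtain ⟨hx, hy⟩ := mem_product.1 (mem_coe.1 hp)
      obtain ⟨hx', hy'⟩ := mem_product.1 (mem_coe.1 hp')
      have hx1 := (mem_sdiff.1 hx).1
      have hx1' := (mem_sdiff.1 hx').1
      have hy1 := (mem_sdiff.1 hy).1
      have hy1' := (mem_sdiff.1 hy').1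
      simp only at hx1 hx1' hy1 hy1' heq
      have h1 : (σ * swap x (σ⁻¹ y)) x = y := by simp
      have h2 : (σ * swap x' (σ⁻¹ y')) x = y := by rw [← heq]; exact h1
      by_cases hxx : x = x'
      · subst hxx
        have h3 : (σ * swap x (σ⁻¹ y')) x = y' := by simp
        rw [h3] at h2
        rw [h2]
      · exfalso
        have hne : x ≠ σ⁻¹ y' := by
          intro h
          apply hσ0' x hx1
          rw [h]
          simpa using hy1'
        have : (σ * swap x' (σ⁻¹ y')) x = σ x := by
          rw [Perm.mul_apply, swap_apply_of_ne_of_ne hxx hne]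
        rw [this] at h2
        exact hσ0' x hx1 (h2 ▸ hy1)
  · intro σ' hσ'
    by_cases hne : (bipartiteBelow (Rel X Y) (C.filter fun σ => N X Y σ = 0) σ').Nonempty
    · obtain ⟨σ, hσ⟩ := hne
      obtain ⟨hσ1, x, hx, z, hxY, rfl⟩ := (mem_bipartiteBelow _).1 hσ
      have hsub : bipartiteBelow (Rel X Y) (C.filter fun σ => N X Y σ = 0) σ' ⊆
          univ.image (fun z : Fin n => σ' * swap x z) := by
        intro τ hτ
        obtain ⟨hτ1, x', hx', z', hxY', rfl⟩ := (mem_bipartiteBelow _).1 hτ
        have hτ0 := N_eq_zero.1 (mem_filter.1 hτ1).2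
        by_cases hxx : x' = x
        · subst hxx
          exact mem_image.2 ⟨z', mem_univ _, rfl⟩
        · exfalso
          by_cases hxz : x = z'
          · subst hxz
            apply hτ0 x hx
            simpa using hxY'
          · apply hτ0 x hx
            have : (σ' * swap x' z') x = σ' x := by
              simp [swap_apply_of_ne_of_ne (fun h => hxx h.symm) hxz]
            rw [this]
            exact hxY
      exact (card_le_card hsub).trans (card_image_le.trans (by simp))
    · rw [not_nonempty_iff_eq_empty] at hne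
      rw [hne]
      simp

/-- At least half of the family satisfies `N = 0`. -/
theorem half {n t : ℕ} (X Y : Finset (Fin n)) (hX : X.card = t + 1) (hY : Y.card = t + 1)
    (hn : 2 * (t + 1) ≤ n) :
    (fam X Y).card ≤ 2 * (univ.filter fun σ : Perm (Fin n) => N X Y σ = 0).card := by
  classical
  -- a permutation moving `Y` off itself
  obtain ⟨Y', hY'sub, hY'card⟩ := exists_subset_card_eq (s := univ \ Y) (n := t + 1) (by
    rw [card_sdiff_of_subset (subset_univ _), hY]; simp; omega)
  obtain ⟨τ, hτ⟩ : ∃ τ : Perm (Fin n), ∀ y ∈ Y, τ y ∉ Y := by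
    have e : {x // x ∈ Y} ≃ {x // x ∈ Y'} :=
      Fintype.equivOfCardEq (by simp [hY, hY'card])
    refine ⟨e.extendSubtype, fun y hy hy' => ?_⟩
    have h1 := e.extendSubtype_mem y hy
    have h2 := hY'sub h1
    exact (mem_sdiff.1 h2).2 hy'
  have h1 : (univ.filter fun σ : Perm (Fin n) => N X Y σ = X.card).card ≤
      (univ.filter fun σ : Perm (Fin n) => N X Y σ = 0).card := by
    refine card_le_card_of_injOn (fun σ => τ * σ) ?_ ?_
    · intro σ hσ
      have hσ' := (mem_filter.1 (mem_coe.1 hσ)).2
      have hall : ∀ x ∈ X, σ x ∈ Y := by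
        by_contra hcon
        push Not at hcon
        obtain ⟨x, hx, hxY⟩ := hcon
        have : N X Y σ ≤ (X.erase x).card := by
          refine card_le_card_of_injOn Prod.fst ?_ ?_
          · intro p hp
            have hp' := mem_filter.1 (mem_coe.1 hp)
            have hp1 := mem_product.1 hp'.1
            refine mem_coe.2 (mem_erase.2 ⟨?_, hp1.1⟩)
            rintro h
            apply hxY
            rw [← h, hp'.2]
            exact hp1.2
          · intro p hp q hq hpq
            have hp' := (mem_filter.1 (mem_coe.1 hp)).2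
            have hq' := (mem_filter.1 (mem_coe.1 hq)).2
            refine Prod.ext hpq ?_
            rw [← hp', ← hq']
            exact congrArg σ hpq
        rw [card_erase_of_mem hx, hσ'] at this
        omega
      refine mem_coe.2 (mem_filter.2 ⟨mem_univ _, ?_⟩)
      rw [N_eq_zero]
      intro x hx
      exact hτ _ (hall x hx)
    · intro σ _ σ' _ h
      exact mul_left_cancel h
  have h2 : fam X Y ⊆ (univ.filter fun σ : Perm (Fin n) => N X Y σ = 0) ∪
      (univ.filter fun σ : Perm (Fin n) => N X Y σ = X.card) := by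
    intro σ hσ
    rcases (mem_filter.1 hσ).2 with h | h
    · exact mem_union_left _ (by simp [h])
    · exact mem_union_right _ (by simp [h])
  have h3 := card_le_card h2
  have h4 := card_union_le (univ.filter fun σ : Perm (Fin n) => N X Y σ = 0)
    (univ.filter fun σ : Perm (Fin n) => N X Y σ = X.card)
  omega

/-- The family is far from every union of `t`-cosets. -/
theorem far {n t : ℕ} (X Y : Finset (Fin n)) (hX : X.card = t + 1) (hY : Y.card = t + 1)
    (ht : 1 ≤ t) (hn : 2 * (t + 1) ≤ n) (C : Finset (Perm (Fin n))) (hC : IsUnionOfCosets t C) :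
    (fam X Y).card * (t + 1) ≤ (symmDiff (fam X Y) C).card * (2 * n) := by
  classical
  set A₀ := univ.filter fun σ : Perm (Fin n) => N X Y σ = 0 with hA₀
  have h1 := leak X Y hX hY ht C hC
  have h2 := half X Y hX hY hn
  -- A₀ = (A₀ ∩ C) ∪ (A₀ \ C)
  have h3 : A₀.card ≤ (C.filter fun σ => N X Y σ = 0).card + (A₀ \ C).card := by
    rw [← card_union_of_disjoint]
    · refine card_le_card fun σ hσ => ?_
      by_cases h : σ ∈ C
      · exact mem_union_left _ (mem_filter.2 ⟨h, (mem_filter.1 hσ).2⟩)
      · exact mem_union_right _ (mem_sdiff.2 ⟨hσ, h⟩)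
    · rw [disjoint_left]
      intro σ h h'
      exact (mem_sdiff.1 h').2 (mem_filter.1 h).1
  have h4 : (A₀ \ C).card + (C \ fam X Y).card ≤ (symmDiff (fam X Y) C).card := by
    rw [← card_union_of_disjoint]
    · refine card_le_card fun σ hσ => ?_
      rw [mem_symmDiff]
      rcases mem_union.1 hσ with h | h
      · left
        obtain ⟨h5, h6⟩ := mem_sdiff.1 h
        exact ⟨mem_filter.2 ⟨mem_univ _, Or.inl (mem_filter.1 h5).2⟩, h6⟩
      · right
        obtain ⟨h5, h6⟩ := mem_sdiff.1 h
        exact ⟨h5, h6⟩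
    · rw [disjoint_left]
      intro σ h h'
      exact (mem_sdiff.1 h).2 (mem_sdiff.1 h').1
  have h5 : A₀.card * (t + 1) ≤ (symmDiff (fam X Y) C).card * n := by
    calc A₀.card * (t + 1)
        ≤ ((C.filter fun σ => N X Y σ = 0).card + (A₀ \ C).card) * (t + 1) :=
          Nat.mul_le_mul_right _ h3
      _ = (C.filter fun σ => N X Y σ = 0).card * (t + 1) + (A₀ \ C).card * (t + 1) := by ring
      _ ≤ (C \ fam X Y).card * n + (A₀ \ C).card * n :=
          Nat.add_le_add h1 (Nat.mul_le_mul_left _ (by omega))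
      _ = ((A₀ \ C).card + (C \ fam X Y).card) * n := by ring
      _ ≤ _ := Nat.mul_le_mul_right _ h4
  calc (fam X Y).card * (t + 1) ≤ (2 * A₀.card) * (t + 1) := Nat.mul_le_mul_right _ h2
    _ = 2 * (A₀.card * (t + 1)) := by ring
    _ ≤ 2 * ((symmDiff (fam X Y) C).card * n) := Nat.mul_le_mul_left _ h5
    _ = _ := by ring

/-- For every real `C₀`, every even `t ≥ 2` with `t + 1 > 2 C₀` and every `n ≥ 2 (t + 1)`, the
stability statement with constant `C₀` fails for `t` and `n`. -/
theorem result : ∀ (C₀ : ℝ) (t n : ℕ), Even t → 2 ≤ t → 2 * C₀ < t + 1 → 2 * (t + 1) ≤ n →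
    ¬ StabilityHolds C₀ t n := by
  classical
  intro C₀ t n ht ht2 hC₀ hn hS
  obtain ⟨X, -, hX⟩ := exists_subset_card_eq (s := (univ : Finset (Fin n))) (n := t + 1)
    (by simp; omega)
  have hfar := far X X hX hX (by omega) hn
  have hmem := ind_fam_mem (t := t) (by omega) ht X X hX
  have hproj : IsProj t (ind (fam X X)) (ind (fam X X)) := ⟨hmem, fun h _ => by simp [expect]⟩
  have hn0 : (0 : ℝ) < n := by
    have : 0 < n := by omega
    exact_mod_cast this
  -- the family is nonempty
  have hA : 0 < (fam X X).card := by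
    rw [card_pos]
    refine ⟨1, mem_filter.2 ⟨mem_univ _, Or.inr ?_⟩⟩
    refine le_antisymm (N_le X X 1) ?_
    refine card_le_card_of_injOn (fun x => (x, x)) ?_ ?_
    · intro x hx
      exact mem_coe.2 (mem_filter.2 ⟨mem_product.2 ⟨mem_coe.1 hx, mem_coe.1 hx⟩, rfl⟩)
    · intro x _ y _ h
      exact congrArg Prod.fst h
  have hA' : (0 : ℝ) < (fam X X).card := by exact_mod_cast hA
  have hexp : 0 ≤ expect (ind (fam X X)) := by
    unfold expect
    refine mul_nonneg (by positivity) (sum_nonneg fun σ _ => ?_)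
    unfold ind
    split_ifs <;> norm_num
  -- choose ε
  obtain ⟨ε, hε, hεC⟩ : ∃ ε : ℝ, 0 < ε ∧ 2 * C₀ * (ε * n + 1) < t + 1 := by
    by_cases h : C₀ ≤ 0
    · refine ⟨1, one_pos, ?_⟩
      have : 2 * C₀ * (1 * n + 1) ≤ 0 := by
        have : (0 : ℝ) ≤ 1 * n + 1 := by positivity
        nlinarith
      have : (0 : ℝ) < t + 1 := by positivity
      linarith
    · push Not at h
      refine ⟨(t + 1 - 2 * C₀) / (4 * C₀ * n), by apply div_pos <;> [linarith; positivity], ?_⟩
      have : (t + 1 - 2 * C₀) / (4 * C₀ * n) * n = (t + 1 - 2 * C₀) / (4 * C₀) := by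
        field_simp
      rw [this]
      have h2 : 2 * C₀ * ((t + 1 - 2 * C₀) / (4 * C₀) + 1) = (t + 1 - 2 * C₀) / 2 + 2 * C₀ := by
        field_simp
        ring
      rw [h2]
      linarith
  obtain ⟨C, hC, hle⟩ := hS ε hε (fam X X) _ hproj (by
    have : expect (fun σ => (ind (fam X X) σ - ind (fam X X) σ) ^ 2) = 0 := by simp [expect]
    rw [this]
    exact mul_nonneg hε.le hexp)
  have h1 : ((fam X X).card : ℝ) * (t + 1) ≤ ((symmDiff (fam X X) C).card : ℝ) * (2 * n) := by
    exact_mod_cast hfar C hC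
  have h2 : ((symmDiff (fam X X) C).card : ℝ) * (2 * n) ≤
      C₀ * (ε + 1 / n) * (fam X X).card * (2 * n) := by
    apply mul_le_mul_of_nonneg_right hle (by positivity)
  have h3 : C₀ * (ε + 1 / n) * (fam X X).card * (2 * n) =
      (2 * C₀ * (ε * n + 1)) * (fam X X).card := by
    field_simp
  rw [h3] at h2
  have h4 : (2 * C₀ * (ε * n + 1)) * (fam X X).card < (t + 1) * (fam X X).card :=
    mul_lt_mul_of_pos_right hεC hA'
  linarith

end Pool.Agent.Results.MP_e70d00_co.NoAbsoluteConstant
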